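import Pool.Agent.LUB.Stmts

/-!
# Squad LUB, row PCS: rings of power series over the `p`-adic integers are `p`-adically complete
-/

set_option autoImplicit false

namespace Pool.Agent.LUB.H79

open Pool.Agent.LUB

/-- the partial sums agree modulo `p ^ m` -/
theorem sum_dvd {S : Type} [CommRing S] (p : ℕ) (b : ℕ → S) {m n : ℕ} (h : m ≤ n) :
    (p : S) ^ m ∣ ∑ k ∈ Finset.range n, (p : S) ^ k * b k -
      ∑ k ∈ Finset.range m, (p : S) ^ k * b k := by
  rw [← Finset.sum_range_add_sum_Ico (fun k => (p : S) ^ k * b k) h, add_sub_cancel_left]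
  refine Finset.dvd_sum fun k hk => ?_
  exact Dvd.dvd.mul_right (pow_dvd_pow _ (Finset.mem_Ico.1 hk).1) _

theorem pc_base (p : ℕ) [Fact p.Prime] : PC p ℤ_[p] := by
  intro b
  have hI : ∀ n : ℕ, (IsLocalRing.maximalIdeal ℤ_[p]) ^ n • (⊤ : Submodule ℤ_[p] ℤ_[p]) =
      Ideal.span {(p : ℤ_[p]) ^ n} := by
    intro n
    rw [PadicInt.maximalIdeal_eq_span_p, Ideal.span_singleton_pow, smul_eq_mul, Ideal.mul_top]
  obtain ⟨l, hl⟩ := IsPrecomplete.prec (I := IsLocalRing.maximalIdeal ℤ_[p]) (M := ℤ_[p])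
    inferInstance (f := fun n => ∑ k ∈ Finset.range n, (p : ℤ_[p]) ^ k * b k) (by
      intro m n hmn
      rw [hI, SModEq.sub_mem, Ideal.mem_span_singleton, ← dvd_neg, neg_sub]
      exact sum_dvd p b hmn)
  refine ⟨l, fun N => ?_⟩
  have h := hl N
  rw [hI, SModEq.sub_mem, Ideal.mem_span_singleton, ← dvd_neg, neg_sub] at h
  exact h

theorem pc_mv (p : ℕ) {S : Type} [CommRing S] (hS : PC p S) (σ : Type) :
    PC p (MvPowerSeries σ S) := by
  intro b
  have hcoe : ∀ (k : ℕ) (g : MvPowerSeries σ S) (m : σ →₀ ℕ),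
      MvPowerSeries.coeff m ((p : MvPowerSeries σ S) ^ k * g) =
        (p : S) ^ k * MvPowerSeries.coeff m g := by
    intro k g m
    have h : (p : MvPowerSeries σ S) ^ k = MvPowerSeries.C ((p : S) ^ k) := by
      rw [map_pow, map_natCast]
    rw [h, MvPowerSeries.coeff_C_mul]
  choose l hl using fun m : σ →₀ ℕ => hS fun k => MvPowerSeries.coeff m (b k)
  obtain ⟨L, hL⟩ : ∃ L : MvPowerSeries σ S, ∀ m, MvPowerSeries.coeff m L = l m :=
    ⟨fun m => l m, fun _ => rfl⟩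
  refine ⟨L, fun N => ?_⟩
  choose c hc using fun m : σ →₀ ℕ => hl m N
  obtain ⟨c', hc'⟩ : ∃ L : MvPowerSeries σ S, ∀ m, MvPowerSeries.coeff m L = c m :=
    ⟨fun m => c m, fun _ => rfl⟩
  refine ⟨c', ?_⟩
  ext m
  rw [hcoe, map_sub, map_sum, hL, hc', ← hc m]
  refine congrArg (fun s => l m - s) (Finset.sum_congr rfl fun k _ => ?_)
  rw [hcoe]

theorem pcs : PcsStmt := by
  intro p _ σ
  exact pc_mv p (pc_mv p (pc_base p) σ) Unit

end Pool.Agent.LUB.H79
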